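import Pool.Agent.helper60.DB.SpecM

/-!
# bm:RG. From the height of `X g²` to `g`
-/

namespace Pool.Agent.helper60.DB

open Polynomial

/-- coprime numerator and denominator of a rational power series -/
theorem RG_cop {K : Type} [Field K] (g : PowerSeries K) (hg : Rt g) :
    ∃ N D : K[X], IsCoprime N D ∧ D ≠ 0 ∧ (D : PowerSeries K) * g = (N : PowerSeries K) := by
  classical
  obtain ⟨N0, D0, hD0, h0⟩ := hg
  obtain ⟨N, hN⟩ := EuclideanDomain.gcd_dvd_left N0 D0
  obtain ⟨D, hD⟩ := EuclideanDomain.gcd_dvd_right N0 D0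
  have hG : EuclideanDomain.gcd N0 D0 ≠ 0 := by
    intro h
    rw [h, zero_mul] at hD
    exact hD0 hD
  have hab := EuclideanDomain.gcd_eq_gcd_ab N0 D0
  refine ⟨N, D, ?_, ?_, ?_⟩
  · refine ⟨EuclideanDomain.gcdA N0 D0, EuclideanDomain.gcdB N0 D0, ?_⟩
    apply mul_left_cancel₀ hG
    calc EuclideanDomain.gcd N0 D0 *
          (EuclideanDomain.gcdA N0 D0 * N + EuclideanDomain.gcdB N0 D0 * D)
        = (EuclideanDomain.gcd N0 D0 * N) * EuclideanDomain.gcdA N0 D0
          + (EuclideanDomain.gcd N0 D0 * D) * EuclideanDomain.gcdB N0 D0 := by ring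
      _ = N0 * EuclideanDomain.gcdA N0 D0 + D0 * EuclideanDomain.gcdB N0 D0 := by
          rw [← hN, ← hD]
      _ = EuclideanDomain.gcd N0 D0 * 1 := by rw [← hab, mul_one]
  · intro h
    rw [h, mul_zero] at hD
    exact hD0 hD
  · have hG' : ((EuclideanDomain.gcd N0 D0 : K[X]) : PowerSeries K) ≠ 0 := by
      intro h
      exact hG (Polynomial.coe_eq_zero_iff.1 h)
    apply mul_left_cancel₀ hG'
    rw [← mul_assoc, ← Polynomial.coe_mul, ← hD, h0, ← Polynomial.coe_mul, ← hN]

theorem RG (hHU : HU_stmt) : RG_stmt := by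
  intro K _ g m hg hH
  obtain ⟨N, D, hcop, hD0, h0⟩ := RG_cop g hg
  have hDc : D.coeff 0 ≠ 0 := by
    intro hc
    have h1 : N.coeff 0 = 0 := by
      have h2 := congrArg PowerSeries.constantCoeff h0
      rw [map_mul, Polynomial.constantCoeff_coe, Polynomial.constantCoeff_coe, hc, zero_mul] at h2
      exact h2.symm
    have hX1 : (X : K[X]) ∣ D := Polynomial.X_dvd_iff.2 hc
    have hX2 : (X : K[X]) ∣ N := Polynomial.X_dvd_iff.2 h1
    exact Polynomial.not_isUnit_X (hcop.isUnit_of_dvd' hX2 hX1)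
  have hXD : IsCoprime (X : K[X]) D :=
    (Polynomial.irreducible_X.coprime_iff_not_dvd).2 fun h => hDc (Polynomial.X_dvd_iff.1 h)
  have hc2 : IsCoprime (X * N ^ 2) (D ^ 2) := by
    apply IsCoprime.mul_left
    · exact hXD.pow_right
    · exact hcop.pow
  have hH2 : Ht (PowerSeries.X * g ^ 2) (max (X * N ^ 2).natDegree (D ^ 2).natDegree) := by
    refine ⟨X * N ^ 2, D ^ 2, hc2, rfl, ?_⟩
    rw [Polynomial.coe_mul, Polynomial.coe_pow, Polynomial.coe_pow, Polynomial.coe_X, ← h0]
    ring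
  have hdeg := hHU K _ _ _ hH2 hH
  refine ⟨N, D, hD0, ?_, ?_, h0⟩
  · by_cases hN : N = 0
    · rw [hN, Polynomial.natDegree_zero]
      exact Nat.zero_le m
    · have h1 : (X * N ^ 2).natDegree = 1 + 2 * N.natDegree := by
        rw [Polynomial.natDegree_mul Polynomial.X_ne_zero (pow_ne_zero 2 hN),
          Polynomial.natDegree_X, Polynomial.natDegree_pow]
      have h2 := le_max_left (X * N ^ 2).natDegree (D ^ 2).natDegree
      omega
  · have h1 : (D ^ 2).natDegree = 2 * D.natDegree := Polynomial.natDegree_pow D 2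
    have h2 := le_max_right (X * N ^ 2).natDegree (D ^ 2).natDegree
    omega

end Pool.Agent.helper60.DB
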